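import Mathlib
import Pool.Agent.P.MP_a9963e_ag.K2.Main

namespace Pool.Agent.Results.MP_a9963e_ag.DegreeTwoConic

open Pool.Agent.P.MP_a9963e_ag

/-- On the affine conic `ℙ¹ - {t² = a}` over a field containing `√-1`, in degree two the
containment holds, the induced map is not injective, and it is not surjective as soon as some
non-zero element of the field is not a norm from `F(√a)`. -/
theorem result : ∀ (F : Type) [Field F], (2 : F) ≠ 0 → IsSquare (-1 : F) →
    ∀ a : F, ¬ IsSquare a → ∃ _ : IsFractionRing (conic F a) (RatFunc F),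
      Algebra.Smooth F (conic F a) ∧
      (∀ (m : ℕ) (f g : Fin m → (RatFunc F)ˣ), TameAll (conic F a) (RatFunc F) f g →
        ∃ q ∈ fund (RatFunc F) ^ 2, ResAll (conic F a) (RatFunc F) q ∧
          q - ∑ i, pf (f i) * pf (g i) ∈ fund (RatFunc F) ^ 3) ∧
      (∃ (m : ℕ) (f g : Fin m → (RatFunc F)ˣ), TameAll (conic F a) (RatFunc F) f g ∧
        ∑ i, pf (f i) * pf (g i) ∈ fund (RatFunc F) ^ 3 ∧
        ∀ (m' : ℕ) (f' g' : Fin m' → (RatFunc F)ˣ), TameAll (conic F a) (RatFunc F) f' g' →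
          ∑ i, symb (f i) (g i) ≠ 2 • ∑ j, symb (f' j) (g' j)) ∧
      ((∃ b : F, b ≠ 0 ∧ ∀ x y : F, x ^ 2 - a * y ^ 2 ≠ b) →
        ∃ q ∈ fund (RatFunc F) ^ 2, ResAll (conic F a) (RatFunc F) q ∧
          ∀ (m : ℕ) (f g : Fin m → (RatFunc F)ˣ), TameAll (conic F a) (RatFunc F) f g →
            q - ∑ i, pf (f i) * pf (g i) ∉ fund (RatFunc F) ^ 3) := by
  intro F _ h2 hi a ha
  have he : e1 F (RatFunc.X : RatFunc F) = algebraMap (Polynomial F) (RatFunc F) := by
    ext c <;> simp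
  have ht : Co1 F (RatFunc.X : RatFunc F) :=
    ⟨he ▸ IsFractionRing.injective _ _, he ▸ fracSurj_algebraMap _ _⟩
  have hfr := ht.frac_Cn a
  let p : (RatFunc F)ˣ := Units.mk0 _ (ht.ne (pp_monic a).ne_zero)
  refine ⟨hfr, ht.smooth_Cn a, fun m f g h => ?_, ⟨1, ![-1], ![p], fun P hP hD => ?_, ?_,
    fun m f g h => ?_⟩, ?_⟩
  · exact ht.contain h2 ha f g fun P hP hD => (tameTrivial_iff _ f g).1 (@h P hP hD)
  · rw [tameTrivial_iff, Fin.sum_univ_one]
    exact @Co1.unK_neg_one _ _ _ _ _ _ ht a hfr p (e1_pp _ a) P hP hD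
  · obtain ⟨i, hi⟩ := hi
    have h0 : algebraMap F (RatFunc F) i ≠ 0 := by
      rw [map_ne_zero]
      rintro rfl
      simp at hi
    have h1 : (-1 : (RatFunc F)ˣ) = 1 * (Units.mk0 _ h0 * Units.mk0 _ h0) := by
      ext
      simpa using congrArg (algebraMap F (RatFunc F)) hi
    rw [Fin.sum_univ_one, Matrix.cons_val_zero, h1, pf_mul_sq, pf_one, zero_mul]
    exact zero_mem _
  · rw [Fin.sum_univ_one]
    exact ht.not_inj h2 hi ha rfl fun P hP hD => (tameTrivial_iff _ f g).1 (@h P hP hD)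
  · rintro ⟨b, hb, hn⟩
    let B : (RatFunc F)ˣ := Units.mk0 (algebraMap F (RatFunc F) b) ((map_ne_zero _).2 hb)
    refine ⟨pf p * pf B, pf_mem2 _ _, ht.rz (w0 := b) (w1 := 0) (e1_pp _ a) (by simp [gg, B])
      (Or.inl rfl), fun m f g h h3 => ?_⟩
    obtain ⟨x, y, e⟩ := ht.not_surj h2 hi ha (p := p) (B := B) rfl rfl f g
      (fun P hP hD => (tameTrivial_iff _ f g).1 (@h P hP hD)) h3
    exact hn x y e

end Pool.Agent.Results.MP_a9963e_ag.DegreeTwoConic
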