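import Mathlib
import Pool.Agent.P.MP_a9963e_ag.Main

namespace Pool.Agent.Results.MP_a9963e_ag.InducedNotOnto

open Pool.Agent.P.MP_a9963e_ag

/-- Over every field of characteristic not two there is a smooth integral affine scheme where in
degree one the containment holds and the induced map is not surjective. -/
theorem result : ∀ (F : Type) [Field F], (2 : F) ≠ 0 →
    ∃ (A L : Type) (_ : CommRing A) (_ : IsDomain A) (_ : Algebra F A) (_ : Field L)
      (_ : Algebra A L) (_ : IsFractionRing A L), Algebra.Smooth F A ∧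
      (∀ f : Lˣ, (∀ (P : Ideal A) [P.IsPrime] [IsDiscreteValuationRing (locAt A L P)],
          ord (locAt A L P) f = 0) →
        pf f ∈ fund L ∧ ∀ (P : Ideal A) [P.IsPrime] [IsDiscreteValuationRing (locAt A L P)],
          ResidueZero (locAt A L P) (pf f)) ∧
      ∃ q ∈ fund L, (∀ (P : Ideal A) [P.IsPrime] [IsDiscreteValuationRing (locAt A L P)],
          ResidueZero (locAt A L P) q) ∧
        ∀ f : Lˣ, (∀ (P : Ideal A) [P.IsPrime] [IsDiscreteValuationRing (locAt A L P)],
          ord (locAt A L P) f = 0) → q - pf f ∉ fund L ^ 2 := by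
  intro F _ h2
  let L := FractionRing (S4 F)
  have hc := coord_X F
  let x : Fin 4 → Lˣ := fun i => Units.mk0 _ (hc.ne_zero_X i)
  have hx : Coord F ![(x 0 : L), x 1, x 2, x 3] := by
    convert hc using 1
    ext i
    fin_cases i <;> rfl
  have := hx.frac_A
  have hpf : ∀ f : Lˣ, pf f ∈ fund L := fun f => Ideal.subset_span ⟨1, -f, rfl⟩
  refine ⟨Glue F (x 0 : L) (x 1) (x 2) (x 3), L, inferInstance, inferInstance, inferInstance,
    inferInstance, inferInstance, this, hx.smooth_A, fun f hf => ⟨hpf f, fun P _ _ => ?_⟩,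
    pf (x 1), hpf _, fun P _ _ => hx.pf_unram P, fun f hf h => ?_⟩
  · apply residueZero_of_mem
    rw [pf, ← wf_units, ← wf_units]
    exact add_mem (AddSubgroup.subset_closure ⟨_, by simp, rfl⟩) (AddSubgroup.subset_closure
      ⟨_, by simpa using (ord_eq_zero_iff _ f).1 (hf P), rfl⟩)
  · obtain ⟨v, hv, v0, v1, -⟩ := hx.exists_par
    obtain ⟨d, hd⟩ := hv.exists_fun (two_ne_zero_of_hom (IsUnit.mk0 _ h2) (algebraMap F L))
      (fun w => w 1)
    have h0 := hv.kill_sq 1 hd h
    have h1 := hx.global_unit h2 hv v0 v1 f.ne_zero fun P _ _ => (ord_eq_zero_iff _ f).1 (hf P)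
    have vs := v1 1
    simp only [Matrix.cons_val_zero, Matrix.cons_val_one] at vs
    simp only [pf, map_sub, map_add, ← wf_units, hd _ (Units.ne_zero _)] at h0
    simp only [Units.val_neg, Units.val_one, hv.neg, hv.one, vs, h1] at h0
    revert h0
    decide

end Pool.Agent.Results.MP_a9963e_ag.InducedNotOnto
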