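import Mathlib
import Pool.Agent.P.MP_a9963e_ag.KStep

namespace Pool.Agent.Results.MP_a9963e_ag.PfisterAllDegrees

open Pool.Agent.P.MP_a9963e_ag

/-- Over a field of characteristic not two, the Pfister image of every unramified class in
`K_n` of every smooth integral affine scheme is the class of an unramified form in `Iⁿ` exactly
when `n ≤ 1`. -/
theorem result : ∀ (F : Type) [Field F], (2 : F) ≠ 0 → ∀ n : ℕ,
    ((∀ (A L : Type) [CommRing A] [IsDomain A] [Algebra F A] [Field L] [Algebra A L]
      [IsFractionRing A L], Algebra.Smooth F A → ∀ (m : ℕ) (f : Fin m → Fin n → Lˣ),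
        (∀ (P : Ideal A) [P.IsPrime] [IsDiscreteValuationRing (locAt A L P)],
          TameZero (locAt A L P) (∑ i, symb (List.ofFn (f i)))) →
        ∃ q ∈ fund L ^ n,
          (∀ (P : Ideal A) [P.IsPrime] [IsDiscreteValuationRing (locAt A L P)],
            ResidueZero (locAt A L P) q) ∧
          q - ∑ i, ∏ j, pf (f i j) ∈ fund L ^ (n + 1)) ↔ n ≤ 1) := by
  intro F _ h2 n
  constructor
  · intro h
    by_contra hn
    obtain ⟨A, L, _, _, _, _, _, _, hs, m, f, hg, hb⟩ := ex_all h2 (not_le.1 hn)
    obtain ⟨q, -, h1, h3⟩ := h A L hs m f fun P _ _ => tameZero_of_mem _ (hg _ fun x =>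
      IsDedekindDomain.HeightOneSpectrum.valuation_le_one _ (algebraMap A (locAt A L P) x))
    exact hb q h1 h3
  · intro hn A L _ _ _ _ _ _ _ m f hf
    obtain rfl | rfl : n = 0 ∨ n = 1 := by omega
    · refine ⟨∑ i, ∏ j, pf (f i j), by simp, fun P _ _ => residueZero_of_mem _ ?_, by simp⟩
      exact sum_mem fun i _ => AddSubgroup.subset_closure ⟨1, by simp, by simp⟩
    · have h1 : ∀ s : Finset (Fin m), ∑ i ∈ s, sym (f i 0) = sym (∏ i ∈ s, f i 0) ∧
          pf (∏ i ∈ s, f i 0) - ∑ i ∈ s, pf (f i 0) ∈ fund L ^ 2 := fun s => by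
        induction s using Finset.induction_on with
        | empty => simp [sym_one, pf_eq]
        | insert i s hi ih =>
          rw [Finset.sum_insert hi, Finset.sum_insert hi, Finset.prod_insert hi, sym_mul, ih.1]
          refine ⟨rfl, ?_⟩
          convert sub_mem ih.2 (sq (fund L) ▸ Ideal.mul_mem_mul (pf_mem (f i 0))
            (pf_mem (∏ i ∈ s, f i 0))) using 1
          simp only [pf_eq (_ * _), pf_eq (f i 0), pf_eq (∏ i ∈ s, f i 0), Units.val_mul, wf_mul]
          ring
      refine ⟨pf (∏ i, f i 0), by simpa using pf_mem _, fun P _ _ => residueZero_of_mem _ ?_,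
        by simpa using (h1 _).2⟩
      have h3 := hf P
      simp only [List.ofFn_succ, List.ofFn_zero, symb_cons, symb_nil, mul_one, (h1 _).1] at h3
      rw [pf_eq, ← wf_one]
      exact sub_mem (AddSubgroup.subset_closure ⟨1, by simp, rfl⟩)
        (AddSubgroup.subset_closure ⟨_, vv_of_tameZero _ h3, rfl⟩)

end Pool.Agent.Results.MP_a9963e_ag.PfisterAllDegrees
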